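import Pool.Agent.Y214.HB.Stm

/-!
Project RHP (helper44): almost all vectors of a box satisfy one of many independent linear congruences.
-/

set_option autoImplicit false

namespace Pool.Agent.Helper44q.R

open Polynomial Pool.Agent.Y214.HB

/-- the number of solutions of a linear equation modulo `p` -/
theorem card_hyp {T : Type} [Fintype T] (p : ℕ) [Fact p.Prime] (μ : T → ZMod p)
    (t₀ : T) (ht : μ t₀ ≠ 0) (r : ZMod p) :
    p * ({c : T → ZMod p | ∑ t, μ t * c t = r} : Set _).ncard = p ^ Fintype.card T := by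
  classical
  let A : Finset (T → ZMod p) := Finset.univ.filter fun c => ∑ t, μ t * c t = r
  have hA : ({c : T → ZMod p | ∑ t, μ t * c t = r} : Set _).ncard = A.card := by
    rw [← Set.ncard_coe_finset]
    congr 1
    ext c
    rw [Finset.mem_coe, Finset.mem_filter]
    exact ⟨fun h => ⟨Finset.mem_univ _, h⟩, fun h => h.2⟩
  rw [hA]
  have hmap : ∀ s : ZMod p, (Finset.univ.filter fun c : T → ZMod p => ∑ t, μ t * c t = s).card = A.card := by
    intro s
    let d : ZMod p := (r - s) / μ t₀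
    refine Finset.card_bij' (fun c _ => c + Pi.single t₀ d) (fun c _ => c - Pi.single t₀ d)
      ?_ ?_ ?_ ?_
    · intro c hc
      rw [Finset.mem_filter] at hc ⊢
      refine ⟨Finset.mem_univ _, ?_⟩
      have hc2 := hc.2
      simp only [Pi.add_apply, mul_add, Finset.sum_add_distrib, hc2]
      rw [Finset.sum_eq_single t₀]
      · rw [Pi.single_eq_same]
        simp only [d]
        field_simp
        ring
      · intro t _ htt
        rw [Pi.single_eq_of_ne htt, mul_zero]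
      · intro h
        exact absurd (Finset.mem_univ _) h
    · intro c hc
      rw [Finset.mem_filter] at hc ⊢
      refine ⟨Finset.mem_univ _, ?_⟩
      have hc2 := hc.2
      simp only [Pi.sub_apply, mul_sub, Finset.sum_sub_distrib, hc2]
      rw [Finset.sum_eq_single t₀]
      · rw [Pi.single_eq_same]
        simp only [d]
        field_simp
        ring
      · intro t _ htt
        rw [Pi.single_eq_of_ne htt, mul_zero]
      · intro h
        exact absurd (Finset.mem_univ _) h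
    · intro c _
      simp
    · intro c _
      simp
  have h1 : ∑ s : ZMod p, (Finset.univ.filter fun c : T → ZMod p => ∑ t, μ t * c t = s).card =
      Fintype.card (T → ZMod p) := by
    rw [← Finset.card_univ]
    exact (Finset.card_eq_sum_card_fiberwise (f := fun c : T → ZMod p => ∑ t, μ t * c t)
      (t := Finset.univ) (fun c _ => Finset.mem_univ _)).symm
  rw [Finset.sum_congr rfl (fun s _ => hmap s), Finset.sum_const, Finset.card_univ,
    ZMod.card, smul_eq_mul] at h1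
  rw [h1]
  simp [ZMod.card]

theorem card_compl {T : Type} [Fintype T] (p : ℕ) [Fact p.Prime] (μ : T → ZMod p)
    (t₀ : T) (ht : μ t₀ ≠ 0) (r : ZMod p) :
    (({c : T → ZMod p | ∑ t, μ t * c t ≠ r} : Set _).ncard : ℝ) ≤
      (1 - ((p : ℝ) - 1) / (p : ℝ) ^ 2) * (p : ℝ) ^ Fintype.card T := by
  classical
  have h1 := card_hyp p μ t₀ ht r
  have h2 : ({c : T → ZMod p | ∑ t, μ t * c t = r} : Set _).ncard +
      ({c : T → ZMod p | ∑ t, μ t * c t ≠ r} : Set _).ncard = p ^ Fintype.card T := by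
    have h3 := Set.ncard_add_ncard_compl ({c : T → ZMod p | ∑ t, μ t * c t = r} : Set _)
    have h4 : ({c : T → ZMod p | ∑ t, μ t * c t = r} : Set _)ᶜ =
        {c : T → ZMod p | ∑ t, μ t * c t ≠ r} := rfl
    rw [h4] at h3
    rw [h3, Nat.card_eq_fintype_card]
    simp [ZMod.card]
  have hp : (1 : ℝ) < p := by exact_mod_cast (Fact.out : p.Prime).one_lt
  have h5 : ((({c : T → ZMod p | ∑ t, μ t * c t = r} : Set _).ncard : ℝ)) =
      (p : ℝ) ^ Fintype.card T / p := by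
    rw [eq_div_iff (by positivity)]
    rw [mul_comm]
    exact_mod_cast h1
  have h6 : ((({c : T → ZMod p | ∑ t, μ t * c t = r} : Set _).ncard : ℝ)) +
      (({c : T → ZMod p | ∑ t, μ t * c t ≠ r} : Set _).ncard : ℝ) = (p : ℝ) ^ Fintype.card T := by
    exact_mod_cast h2
  have h7 : (({c : T → ZMod p | ∑ t, μ t * c t ≠ r} : Set _).ncard : ℝ) =
      (1 - 1 / p) * (p : ℝ) ^ Fintype.card T := by
    rw [h5] at h6
    field_simp at h6 ⊢
    linarith
  rw [h7]
  refine mul_le_mul_of_nonneg_right ?_ (by positivity)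
  have h8 : 1 - ((p : ℝ) - 1) / (p : ℝ) ^ 2 - (1 - 1 / p) = 1 / (p : ℝ) ^ 2 := by
    field_simp
    ring
  have h9 : (0 : ℝ) < 1 / (p : ℝ) ^ 2 := by positivity
  linarith

/-- Almost all vectors of a box satisfy one of the congruences `∑ μ p t * c t ≡ r p` modulo `p`,
`p ∈ L`, uniformly in `r`. -/
theorem den_hyp (hBOX : S_BOX) (hPROD : S_PROD) (T : Type) [Fintype T] (L : Set ℕ)
    (hL : ∀ p ∈ L, p.Prime) (hD : Dv L) (μ : ℕ → T → ℤ)
    (hμ : ∀ p ∈ L, ∃ t, ¬ (p : ℤ) ∣ μ p t) (ε : ℝ) (hε : 0 < ε) (m : ℕ) :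
    ∃ M H₀ : ℕ, m ≤ M ∧ ∀ H : ℕ, H₀ ≤ H → ∀ r : ℕ → ℤ,
      (({c : T → ℤ | (∀ t, |c t| ≤ (H : ℤ)) ∧
        ∀ p ∈ L, m < p → p ≤ M → ¬ (p : ℤ) ∣ ∑ t, μ p t * c t - r p} : Set _).ncard : ℝ) ≤
        ε * (2 * (H : ℝ) + 1) ^ Fintype.card T := by
  classical
  obtain ⟨A, hA, hprod⟩ := hPROD L hL hD (ε / 2) (half_pos hε) m
  have hAp : ∀ p ∈ A, p.Prime := fun p hp => hL p (hA p hp).1
  let R : Type := (q : A) → ZMod (q : ℕ)
  have : ∀ q : A, NeZero (q : ℕ) := fun q => ⟨(hAp q q.2).ne_zero⟩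
  let B : R → (∀ p : ℕ, Set (T → ZMod p)) := fun ρ p =>
    if h : p ∈ A then {c | ∑ t, (μ p t : ZMod p) * c t ≠ ρ ⟨p, h⟩} else ∅
  have hB : ∀ ρ : R, ∃ H₀ : ℕ, ∀ H : ℕ, H₀ ≤ H →
      (({c : T → ℤ | (∀ t, |c t| ≤ (H : ℤ)) ∧ ∀ p ∈ A, (fun t => (c t : ZMod p)) ∈ B ρ p} :
        Set (T → ℤ)).ncard : ℝ) ≤ (∏ p ∈ A, (1 - ((p : ℝ) - 1) / (p : ℝ) ^ 2) + ε / 2) *
          (2 * (H : ℝ) + 1) ^ Fintype.card T := by
    intro ρ
    refine hBOX T A hAp (B ρ) (fun p => 1 - ((p : ℝ) - 1) / (p : ℝ) ^ 2) (fun p hp => ?_)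
      (ε / 2) (half_pos hε)
    have : Fact p.Prime := ⟨hAp p hp⟩
    obtain ⟨t₀, ht₀⟩ := hμ p (hA p hp).1
    have hne : (μ p t₀ : ZMod p) ≠ 0 := by
      rw [Ne, ZMod.intCast_zmod_eq_zero_iff_dvd]
      exact ht₀
    have e : B ρ p = {c | ∑ t, (μ p t : ZMod p) * c t ≠ ρ ⟨p, hp⟩} := dif_pos hp
    rw [e]
    exact card_compl p (fun t => (μ p t : ZMod p)) t₀ hne _
  choose H₁ hH₁ using hB
  obtain ⟨M, hM⟩ := A.exists_le
  have hfin : Finite R := by
    change Finite ((q : A) → ZMod (q : ℕ))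
    infer_instance
  have := Fintype.ofFinite R
  obtain ⟨H₀, hH₀⟩ := (Finset.univ.image H₁).exists_le
  refine ⟨max m M, H₀, le_max_left _ _, fun H hH r => ?_⟩
  let ρ : R := fun q => (r q : ZMod (q : ℕ))
  have h1 := hH₁ ρ H ((hH₀ _ (Finset.mem_image_of_mem _ (Finset.mem_univ ρ))).trans hH)
  have hsub : {c : T → ℤ | (∀ t, |c t| ≤ (H : ℤ)) ∧
        ∀ p ∈ L, m < p → p ≤ max m M → ¬ (p : ℤ) ∣ ∑ t, μ p t * c t - r p} ⊆
      {c : T → ℤ | (∀ t, |c t| ≤ (H : ℤ)) ∧ ∀ p ∈ A, (fun t => (c t : ZMod p)) ∈ B ρ p} := by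
    rintro c ⟨hc1, hc2⟩
    refine ⟨hc1, fun p hp => ?_⟩
    have h2 := hc2 p (hA p hp).1 (hA p hp).2 ((hM p hp).trans (le_max_right _ _))
    have e : B ρ p = {c | ∑ t, (μ p t : ZMod p) * c t ≠ ρ ⟨p, hp⟩} := dif_pos hp
    rw [e]
    intro h3
    apply h2
    rw [← ZMod.intCast_zmod_eq_zero_iff_dvd]
    push_cast
    rw [sub_eq_zero]
    exact h3
  have hbox : {c : T → ℤ | ∀ t, |c t| ≤ (H : ℤ)}.Finite := by
    have : {c : T → ℤ | ∀ t, |c t| ≤ (H : ℤ)} =
        ((Fintype.piFinset fun _ : T => Finset.Icc (-(H : ℤ)) H : Finset (T → ℤ)) :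
          Set (T → ℤ)) := by
      ext c
      rw [Finset.mem_coe, Fintype.mem_piFinset]
      refine forall_congr' fun t => ?_
      rw [Finset.mem_Icc, abs_le]
    rw [this]
    exact Finset.finite_toSet _
  have h4 : (({c : T → ℤ | (∀ t, |c t| ≤ (H : ℤ)) ∧
        ∀ p ∈ L, m < p → p ≤ max m M → ¬ (p : ℤ) ∣ ∑ t, μ p t * c t - r p} : Set _).ncard : ℝ) ≤
      (({c : T → ℤ | (∀ t, |c t| ≤ (H : ℤ)) ∧ ∀ p ∈ A, (fun t => (c t : ZMod p)) ∈ B ρ p} :
        Set (T → ℤ)).ncard : ℝ) := by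
    exact_mod_cast Set.ncard_le_ncard hsub (hbox.subset fun c hc => hc.1)
  refine h4.trans (h1.trans ?_)
  refine mul_le_mul_of_nonneg_right ?_ (by positivity)
  linarith

end Pool.Agent.Helper44q.R
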