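import Pool.Agent.Helper44q.R.Test
import Pool.Agent.Y994.HB.Den
import Pool.Agent.H90Q.Defs

/-!
Project RHP (helper44): cyclic covers `z ^ q = f(x)` of projective spaces.
-/

set_option autoImplicit false

namespace Pool.Agent.Helper44q.R

open Polynomial Filter Topology Pool.Agent.Y214.HB Pool.Agent.H90Q
open Pool.Agent.Y994.HB (TT pol coeff_pol hom_pol pol_inj Fm_eq box_fin Fm_card)

attribute [local instance] Pool.Agent.Y994.HB.instFtTT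

variable {n : ℕ}

/-- the affine coordinates `w / a₀ ^ l`, `aᵢ / a₀` of a point with `a₀ ≠ 0` -/
def affC (l : ℕ) (a : Fin (n + 1) → ℚ) (w : ℚ) : Fin (n + 1) → ℚ :=
  Fin.cons (w / a 0 ^ l) fun i => a i.succ / a 0

/-- the vector `(1, b₁, …, bₙ)` -/
def hat {R : Type*} [One R] (b : Fin (n + 1) → R) : Fin (n + 1) → R := Fin.cons 1 fun i => b i.succ

/-- modulo `p` the vector `b` gives a point of the affine cover whose coordinate `z` is not zero -/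
def TestC (q : ℕ) (f : MvPolynomial (Fin (n + 1)) ℤ) (p : ℕ) (b : Fin (n + 1) → ℤ) : Prop :=
  ¬ (p : ℤ) ∣ b 0 ∧ (p : ℤ) ∣ MvPolynomial.eval (hat b) f - b 0 ^ q

/-- `f` passes the tests at distinct primes between `m` and `M` for factors of `P` -/
def TestedC (q m M : ℕ) (f : MvPolynomial (Fin (n + 1)) ℤ)
    (P : (MvPolynomial (Fin (n + 1)) ℤ)[X]) : Prop :=
  ∃ (k : ℕ) (Q : Fin k → (MvPolynomial (Fin (n + 1)) ℤ)[X]) (c : MvPolynomial (Fin (n + 1)) ℤ)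
    (l : Fin k → ℕ) (b : Fin k → Fin (n + 1) → ℤ), 1 ≤ k ∧ C c * P = ∏ i, Q i ∧
    Function.Injective l ∧ ∀ i, (l i).Prime ∧ m < l i ∧ l i ≤ M ∧ Obs (Q i) (l i) (b i) ∧
      TestC q f (l i) (b i)

/-- weak approximation to precision `1 / m` by points with `a₀ ≠ 0` such that `P(x, w)` has no
rational root `w` -/
def WACP (q l m : ℕ) (H : ℝ) (f : MvPolynomial (Fin (n + 1)) ℤ)
    (P : (MvPolynomial (Fin (n + 1)) ℤ)[X]) : Prop :=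
  ∀ (x : ∀ (p : ℕ) [Fact p.Prime], Fin (n + 1) → ℚ_[p]) (z : ∀ (p : ℕ) [Fact p.Prime], ℚ_[p])
    (y : Fin (n + 1) → ℝ) (u : ℝ),
    (∀ (p : ℕ) [Fact p.Prime], x p ≠ 0 ∧ MvPolynomial.aeval (x p) f = z p ^ q) → y ≠ 0 →
    MvPolynomial.aeval y f = u ^ q →
    ∃ (a : Fin (n + 1) → ℚ) (w : ℚ), a ≠ 0 ∧ MvPolynomial.aeval a f = w ^ q ∧
      (∀ (p : ℕ) [Fact p.Prime], p ≤ m → ∃ c : ℚ_[p], c ≠ 0 ∧
        (∀ i, ‖x p i - c * (a i : ℚ_[p])‖ ≤ ‖x p‖ / m) ∧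
        ‖z p - c ^ l * (w : ℚ_[p])‖ ≤ ‖x p‖ ^ l / m) ∧
      (∃ c : ℝ, c ≠ 0 ∧ (∀ i, |y i - c * (a i : ℝ)| ≤ ‖y‖ / m) ∧
        |u - c ^ l * (w : ℝ)| ≤ H ^ (1 / (q : ℝ)) * ‖y‖ ^ l / m) ∧
      a 0 ≠ 0 ∧ ∀ t : ℚ, (P.map (evQ (affC l a w))).eval t ≠ 0

theorem unit_norm {p : ℕ} [Fact p.Prime] {b : ℤ} (hb : ¬ (p : ℤ) ∣ b) : ‖(b : ℤ_[p])‖ = 1 := by
  refine le_antisymm (PadicInt.norm_le_one _) ?_
  by_contra h
  push Not at h
  exact hb ((PadicInt.norm_int_lt_one_iff_dvd _).1 h)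

/-- Hensel lifting of a root of order `q` -/
theorem hensel_root (p : ℕ) [Fact p.Prime] (q : ℕ) (hq : ¬ p ∣ q) (b c : ℤ) (hb : ¬ (p : ℤ) ∣ b)
    (hc : (p : ℤ) ∣ c - b ^ q) :
    ∃ y : ℤ_[p], (y : ℚ_[p]) ^ q = (c : ℚ_[p]) ∧ ‖y - (b : ℤ_[p])‖ < 1 := by
  have hbn := unit_norm hb
  have hqn : ‖(q : ℤ_[p])‖ = 1 := by
    have h1 : ¬ (p : ℤ) ∣ ((q : ℕ) : ℤ) := fun h => hq (by exact_mod_cast h)
    have h2 := unit_norm h1
    exact_mod_cast h2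
  obtain ⟨F, hF⟩ : ∃ F : ℤ_[p][X], F = X ^ q - C (c : ℤ_[p]) := ⟨_, rfl⟩
  have e1 : ∀ x : ℤ_[p], Polynomial.aeval x F = x ^ q - (c : ℤ_[p]) := by
    intro x
    rw [hF]
    simp
  have e2 : ∀ x : ℤ_[p], Polynomial.aeval x (derivative F) = q * x ^ (q - 1) := by
    intro x
    rw [hF, derivative_sub, derivative_C, sub_zero, derivative_X_pow]
    simp
  have n2 : ‖Polynomial.aeval (b : ℤ_[p]) (derivative F)‖ = 1 := by
    rw [e2, norm_mul, norm_pow, hbn, hqn, one_pow, mul_one]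
  have n1 : ‖Polynomial.aeval (b : ℤ_[p]) F‖ < ‖Polynomial.aeval (b : ℤ_[p]) (derivative F)‖ ^ 2 := by
    rw [n2, e1, norm_sub_rev, one_pow]
    have : (c : ℤ_[p]) - (b : ℤ_[p]) ^ q = ((c - b ^ q : ℤ) : ℤ_[p]) := by push_cast; ring
    rw [this]
    exact (PadicInt.norm_int_lt_one_iff_dvd _).2 hc
  obtain ⟨y, hy1, hy2, -⟩ := hensels_lemma n1
  refine ⟨y, ?_, ?_⟩
  · rw [e1] at hy1
    have e3 : ((y ^ q : ℤ_[p]) : ℚ_[p]) = (((c : ℤ) : ℤ_[p]) : ℚ_[p]) := by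
      rw [sub_eq_zero.mp hy1]
    rw [PadicInt.coe_pow, PadicInt.coe_intCast] at e3
    exact e3
  · rw [n2] at hy2
    exact hy2

theorem aeval_int {B : Type} [CommRing B] (a : Fin (n + 1) → ℤ) (f : MvPolynomial (Fin (n + 1)) ℤ) :
    MvPolynomial.aeval (fun i => ((a i : ℤ) : B)) f = ((MvPolynomial.eval a f : ℤ) : B) := by
  have h := MvPolynomial.comp_aeval_apply a (Algebra.ofId ℤ B) f
  have h1 : (MvPolynomial.aeval a f : ℤ) = MvPolynomial.eval a f := rfl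
  rw [h1] at h
  exact h.symm

/-- the conditions on the new local point -/
def CdC {k : ℕ} (q : ℕ) (f : MvPolynomial (Fin (n + 1)) ℤ) (l : Fin k → ℕ)
    (b : Fin k → Fin (n + 1) → ℤ) (p : ℕ) [Fact p.Prime] (v : (Fin (n + 1) → ℚ_[p]) × ℚ_[p]) :
    Prop :=
  v.1 ≠ 0 ∧ MvPolynomial.aeval v.1 f = v.2 ^ q ∧ ‖v.1‖ ≤ 1 ∧
    ∀ i, l i = p → v.1 0 = 1 ∧ ‖v.2 - (b i 0 : ℚ_[p])‖ < 1 ∧
      ∀ j : Fin n, v.1 j.succ = (b i j.succ : ℚ_[p])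

theorem lift_testC (p : ℕ) [Fact p.Prime] (q : ℕ) (hq : ¬ p ∣ q)
    (f : MvPolynomial (Fin (n + 1)) ℤ) (b : Fin (n + 1) → ℤ) (h : TestC q f p b) :
    ∃ v : (Fin (n + 1) → ℚ_[p]) × ℚ_[p], v.1 ≠ 0 ∧ MvPolynomial.aeval v.1 f = v.2 ^ q ∧
      ‖v.1‖ ≤ 1 ∧ v.1 0 = 1 ∧ ‖v.2 - (b 0 : ℚ_[p])‖ < 1 ∧
      ∀ j : Fin n, v.1 j.succ = (b j.succ : ℚ_[p]) := by
  obtain ⟨h0, h1⟩ := h
  obtain ⟨y, hy1, hy2⟩ := hensel_root p q hq (b 0) _ h0 h1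
  refine ⟨(fun i => ((hat b i : ℤ) : ℚ_[p]), (y : ℚ_[p])), ?_, ?_, ?_, ?_, ?_, ?_⟩
  · intro h
    have h2 := congrFun h 0
    simp [hat] at h2
  · change MvPolynomial.aeval (fun i => ((hat b i : ℤ) : ℚ_[p])) f = (y : ℚ_[p]) ^ q
    rw [aeval_int, hy1]
  · refine (pi_norm_le_iff_of_nonneg zero_le_one).mpr fun i => ?_
    exact Padic.norm_int_le_one _
  · simp [hat]
  · change ‖(y : ℚ_[p]) - (b 0 : ℚ_[p])‖ < 1
    have : (y : ℚ_[p]) - (b 0 : ℚ_[p]) = ((y - (b 0 : ℤ_[p]) : ℤ_[p]) : ℚ_[p]) := by push_cast; rfl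
    rw [this]
    exact hy2
  · intro j
    simp [hat]

theorem fixC (h1 : S_LOC) (q l m M : ℕ) (H : ℝ) (hH : 0 ≤ H) (f : MvPolynomial (Fin (n + 1)) ℤ)
    (P : (MvPolynomial (Fin (n + 1)) ℤ)[X]) (hq : 1 ≤ q) (hqm : q ≤ m) (hmM : m ≤ M)
    (hM2 : 2 ≤ M) (hWA : WAC q l M H f) (hT : TestedC q m M f P) : WACP q l m H f P := by
  classical
  intro x z y u hxz hy hyf
  obtain ⟨k, Q, c, ℓ, b, hk, hcP, hinj, hl⟩ := hT
  have hFact : ∀ i, Fact (ℓ i).Prime := fun i => ⟨(hl i).1⟩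
  have hl2 : ∀ i, ¬ ℓ i ∣ q := fun i h => by
    have h3 := (hl i).2.1
    have h4 := Nat.le_of_dvd (by omega) h
    omega
  have hmR : (0 : ℝ) < m := by
    have : 0 < m := by omega
    exact_mod_cast this
  have hmMR : (m : ℝ) ≤ M := by exact_mod_cast hmM
  have hMR : (2 : ℝ) ≤ M := by exact_mod_cast hM2
  let v : ∀ (p : ℕ) [Fact p.Prime], (Fin (n + 1) → ℚ_[p]) × ℚ_[p] := fun p _ =>
    if h : (∃ i, ℓ i = p) ∧ ∃ v : (Fin (n + 1) → ℚ_[p]) × ℚ_[p], CdC q f ℓ b p v then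
      h.2.choose else (x p, z p)
  have hv1 : ∀ (p : ℕ) [Fact p.Prime], (¬ ∃ i, ℓ i = p) → v p = (x p, z p) := by
    intro p _ h
    exact dif_neg fun h' => h h'.1
  have hv2 : ∀ i, CdC q f ℓ b (ℓ i) (v (ℓ i)) := by
    intro i
    have hex : (∃ j, ℓ j = ℓ i) ∧ ∃ v : (Fin (n + 1) → ℚ_[ℓ i]) × ℚ_[ℓ i],
        CdC q f ℓ b (ℓ i) v := by
      refine ⟨⟨i, rfl⟩, ?_⟩
      obtain ⟨v, hv1, hv2, hv3, hv4, hv5, hv6⟩ := lift_testC (ℓ i) q (hl2 i) f (b i)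
        (hl i).2.2.2.2
      refine ⟨v, hv1, hv2, hv3, fun j hj => ?_⟩
      rw [hinj hj]
      exact ⟨hv4, hv5, hv6⟩
    have e : v (ℓ i) = hex.2.choose := dif_pos hex
    rw [e]
    exact hex.2.choose_spec
  have hv : ∀ (p : ℕ) [Fact p.Prime], (v p).1 ≠ 0 ∧ MvPolynomial.aeval (v p).1 f = (v p).2 ^ q := by
    intro p _
    by_cases h : (∃ i, ℓ i = p) ∧ ∃ v : (Fin (n + 1) → ℚ_[p]) × ℚ_[p], CdC q f ℓ b p v
    · have e : v p = h.2.choose := dif_pos h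
      rw [e]
      exact ⟨h.2.choose_spec.1, h.2.choose_spec.2.1⟩
    · have e : v p = (x p, z p) := dif_neg h
      rw [e]
      exact hxz p
  obtain ⟨a, w, ha0, haw, hp, hr⟩ := hWA (fun p _ => (v p).1) (fun p _ => (v p).2) y u hv hy hyf
  have hnear : ∀ i, a 0 ≠ 0 ∧ ∀ j, ‖(affC l a w j : ℚ_[ℓ i]) - (b i j : ℚ_[ℓ i])‖ < 1 := by
    intro i
    obtain ⟨α, hα, hx, hz⟩ := hp (ℓ i) (hl i).2.2.1
    obtain ⟨hv1, hv2, hv3, hv4⟩ := hv2 i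
    obtain ⟨g1, g2, g3⟩ := hv4 i rfl
    have hlt : ‖(v (ℓ i)).1‖ / (M : ℝ) < 1 := by
      rw [div_lt_one (by linarith)]
      linarith
    have hlt2 : ‖(v (ℓ i)).1‖ ^ l / (M : ℝ) < 1 := by
      rw [div_lt_one (by linarith)]
      have := pow_le_one₀ (n := l) (norm_nonneg _) hv3
      linarith
    have h0 : ‖α * (a 0 : ℚ_[ℓ i]) - 1‖ < 1 := by
      have := lt_of_le_of_lt (hx 0) hlt
      rw [g1, norm_sub_rev] at this
      exact this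
    have hu : ‖α * (a 0 : ℚ_[ℓ i])‖ = 1 := by
      have e : α * (a 0 : ℚ_[ℓ i]) = (α * (a 0 : ℚ_[ℓ i]) - 1) + 1 := by ring
      rw [e, IsUltrametricDist.norm_add_eq_max_of_norm_ne_norm
        (by rw [norm_one]; exact ne_of_lt h0), norm_one]
      exact max_eq_right h0.le
    have ha00 : a 0 ≠ 0 := by
      intro h
      rw [h, Rat.cast_zero, mul_zero, norm_zero] at hu
      exact zero_ne_one hu
    refine ⟨ha00, fun j => ?_⟩
    refine Fin.cases ?_ (fun j => ?_) j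
    · have h2 := lt_of_le_of_lt hz hlt2
      rw [norm_sub_rev] at h2
      have h3 := near_coord (t := α ^ l * (w : ℚ_[ℓ i])) (Z := (v (ℓ i)).2)
        (b := (b i 0 : ℚ_[ℓ i])) hu norm_one h0 l (by rw [one_pow, one_mul]; exact h2)
        (Padic.norm_int_le_one _) g2
      have e : α ^ l * (w : ℚ_[ℓ i]) / (α * (a 0 : ℚ_[ℓ i])) ^ l =
          (w : ℚ_[ℓ i]) / (a 0 : ℚ_[ℓ i]) ^ l := by
        rw [mul_pow, mul_div_mul_left _ _ (pow_ne_zero _ hα)]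
      rw [e] at h3
      change ‖((w / a 0 ^ l : ℚ) : ℚ_[ℓ i]) - (b i 0 : ℚ_[ℓ i])‖ < 1
      push_cast
      exact h3
    · have h2 := lt_of_le_of_lt (hx j.succ) hlt
      rw [norm_sub_rev] at h2
      have h3 := near_coord (t := α * (a j.succ : ℚ_[ℓ i])) (Z := (v (ℓ i)).1 j.succ)
        (b := (b i j.succ : ℚ_[ℓ i])) hu norm_one h0 1 (by rw [one_pow, one_mul]; exact h2)
        (Padic.norm_int_le_one _) (by rw [g3 j, sub_self, norm_zero]; exact one_pos)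
      have e : α * (a j.succ : ℚ_[ℓ i]) / (α * (a 0 : ℚ_[ℓ i])) ^ 1 =
          (a j.succ : ℚ_[ℓ i]) / (a 0 : ℚ_[ℓ i]) := by
        rw [pow_one, mul_div_mul_left _ _ hα]
      rw [e] at h3
      change ‖((a j.succ / a 0 : ℚ) : ℚ_[ℓ i]) - (b i j.succ : ℚ_[ℓ i])‖ < 1
      push_cast
      exact h3
  refine ⟨a, w, ha0, haw, ?_, ?_, (hnear ⟨0, hk⟩).1, ?_⟩
  · intro p _ hpm
    obtain ⟨α, hα, hx, hz⟩ := hp p (hpm.trans hmM)
    have e3 : v p = (x p, z p) := hv1 p fun ⟨i, hi⟩ => by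
      have := (hl i).2.1
      omega
    rw [e3] at hx hz
    exact ⟨α, hα, fun i => (hx i).trans (div_le_div_of_nonneg_left (norm_nonneg _) hmR hmMR),
      hz.trans (div_le_div_of_nonneg_left (by positivity) hmR hmMR)⟩
  · obtain ⟨α, hα, hx, hz⟩ := hr
    exact ⟨α, hα, fun i => (hx i).trans (div_le_div_of_nonneg_left (norm_nonneg _) hmR hmMR),
      hz.trans (div_le_div_of_nonneg_left (by positivity) hmR hmMR)⟩
  · intro t ht
    have e : ((C c * P).map (evQ (affC l a w))).eval t = 0 := by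
      rw [Polynomial.map_mul, eval_mul, ht, mul_zero]
    rw [hcP, Polynomial.map_prod, eval_prod, Finset.prod_eq_zero_iff] at e
    obtain ⟨i, -, hi⟩ := e
    exact h1 n (Q i) (ℓ i) (b i) (hl i).2.2.2.1 (affC l a w) (hnear i).2 t hi

theorem wac_mono {q l m M : ℕ} {H : ℝ} {f : MvPolynomial (Fin (n + 1)) ℤ} (hH : 0 ≤ H)
    (hm : 1 ≤ m) (hmM : m ≤ M) (h : WAC q l M H f) : WAC q l m H f := by
  intro x z y u hxz hy hyf
  obtain ⟨a, w, ha0, haw, hp, α, hα, hx, hz⟩ := h x z y u hxz hy hyf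
  have hmR : (0 : ℝ) < m := by exact_mod_cast hm
  have hmMR : (m : ℝ) ≤ M := by exact_mod_cast hmM
  refine ⟨a, w, ha0, haw, ?_, α, hα,
    fun i => (hx i).trans (div_le_div_of_nonneg_left (norm_nonneg _) hmR hmMR),
    hz.trans (div_le_div_of_nonneg_left (by positivity) hmR hmMR)⟩
  intro p _ hpm
  obtain ⟨α, hα, hx, hz⟩ := hp p (hpm.trans hmM)
  exact ⟨α, hα, fun i => (hx i).trans (div_le_div_of_nonneg_left (norm_nonneg _) hmR hmMR),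
      hz.trans (div_le_div_of_nonneg_left (by positivity) hmR hmMR)⟩

end Pool.Agent.Helper44q.R
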