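import Pool.Agent.Helper44q.R.CycT
import Pool.Agent.H90Q.All3
import Pool.Agent.Y297.HB.Box
import Pool.Agent.Y96.HB.Prod
import Pool.Agent.Y155.HB.Spec
import Pool.Agent.Y945.HB.Fac
import Pool.Agent.Y420.HB.LocFin
import Pool.Agent.Y972.HB.NR

/-!
Project RHP (helper44): the theorem for Fano cyclic covers.
-/

set_option autoImplicit false

namespace Pool.Agent.Helper44q.R

open Polynomial Filter Topology Pool.Agent.Y214.HB Pool.Agent.H90Q

theorem main_cyc (n q l : ℕ) (hn : 2 ≤ n) (hq : 2 ≤ q) (hl : 1 ≤ l) (hF : (q - 1) * l ≤ n) :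
    (∃ m : ℕ → ℕ, Tendsto m atTop atTop ∧ Tendsto (fun H : ℕ =>
      (({f | f ∈ Fm n (q * l) H ∧ SmoothC q f ∧ ElsC q f ∧ WAC q l (m H) H f} :
        Set _).ncard : ℝ) /
      (({f | f ∈ Fm n (q * l) H ∧ SmoothC q f ∧ ElsC q f} : Set _).ncard : ℝ)) atTop (𝓝 1)) ∧
    ∃ c : ℝ, 0 < c ∧ ∀ᶠ H : ℕ in atTop, c * ((Fm n (q * l) H).ncard : ℝ) ≤
      (({f | f ∈ Fm n (q * l) H ∧ SmoothC q f ∧ ElsC q f} : Set _).ncard : ℝ) := by
  have h2 : 2 ≤ q * l := by nlinarith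
  obtain ⟨e, he⟩ : ∃ e, e + 2 = q * l := ⟨q * l - 2, by omega⟩
  have hbl : q * l = (q - 1) * l + l := by
    obtain ⟨c, rfl⟩ : ∃ c, q = c + 1 := ⟨q - 1, by omega⟩
    rw [Nat.add_sub_cancel]; ring
  have hC : Pool.Agent.H90Q.S_CLASS (Fin (n + 1)) e q l := by
    rcases Nat.eq_or_lt_of_le hn with h2n | h3n
    · subst h2n
      exact Pool.Agent.H90Q.class_cov3 e q l hq hl he hF
    · exact Pool.Agent.H90Q.class_cov (Fin (n + 1)) (by rw [Fintype.card_fin]; omega) e q l hq hl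
        he (by rw [Fintype.card_fin]; omega)
  have key := Pool.Agent.H90Q.main_of_class (Fin (n + 1)) (by rw [Fintype.card_fin]; omega) e q l
    hq hl he hC
  rw [he] at key
  exact key

theorem mainC (n q l : ℕ) (hn : 2 ≤ n) (hq : 2 ≤ q) (hl : 1 ≤ l) (hF : (q - 1) * l ≤ n) :
    ∃ m : ℕ → ℕ, Tendsto m atTop atTop ∧ Tendsto (fun H : ℕ =>
      (({f | f ∈ Fm n (q * l) H ∧ SmoothC q f ∧ ElsC q f ∧
        WACP q l (m H) H f (PtC n (m H))} : Set _).ncard : ℝ) /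
      (({f | f ∈ Fm n (q * l) H ∧ SmoothC q f ∧ ElsC q f} : Set _).ncard : ℝ)) atTop (𝓝 1) := by
  classical
  obtain ⟨⟨m₀, hm₀, hlim⟩, c, hc, hpos⟩ := main_cyc n q l hn hq hl hF
  have htest := fun N : ℕ => tested_allC Pool.Agent.Y297.HB.t_BOX Pool.Agent.Y96.HB.t_PROD
    Pool.Agent.Y945.HB.t_FAC Pool.Agent.Y155.HB.t_SPEC Pool.Agent.Y972.HB.t_NR (q * l) q (PtC n N)
    (ptC_noRoot n N) N (1 / ((N : ℝ) + 1)) (by positivity)
  choose M A hM hA using htest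
  obtain ⟨m, hm⟩ : ∃ m : ℕ → ℕ, m = fun H : ℕ => Nat.findGreatest
      (fun n => ∀ i, i ≤ n → A i ≤ H ∧ M i ≤ m₀ H) H := ⟨_, rfl⟩
  have hmtop : Tendsto m atTop atTop := by
    rw [tendsto_atTop]
    intro b
    obtain ⟨B, hB⟩ := Finset.exists_le ((Finset.range (b + 1)).image A)
    obtain ⟨B', hB'⟩ := Finset.exists_le ((Finset.range (b + 1)).image M)
    filter_upwards [eventually_ge_atTop b, eventually_ge_atTop B,
      tendsto_atTop.mp hm₀ B'] with H h1 h2 h3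
    rw [hm]
    apply Nat.le_findGreatest h1
    intro i hi
    have hir : i ∈ Finset.range (b + 1) := Finset.mem_range.mpr (by omega)
    exact ⟨(hB _ (Finset.mem_image_of_mem A hir)).trans h2,
      (hB' _ (Finset.mem_image_of_mem M hir)).trans h3⟩
  have hmspec : ∀ H : ℕ, m H ≠ 0 → A (m H) ≤ H ∧ M (m H) ≤ m₀ H := by
    intro H hH
    have h1 : ∀ i, i ≤ m H → A i ≤ H ∧ M i ≤ m₀ H :=
      Nat.findGreatest_of_ne_zero (P := fun n => ∀ i, i ≤ n → A i ≤ H ∧ M i ≤ m₀ H) (n := H)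
        (by rw [hm]) hH
    exact h1 _ le_rfl
  refine ⟨m, hmtop, ?_⟩
  have h1 : Tendsto (fun H : ℕ =>
      (({f | f ∈ Fm n (q * l) H ∧ SmoothC q f ∧ ElsC q f ∧ WAC q l (m₀ H) H f} :
        Set _).ncard : ℝ) /
      (({f | f ∈ Fm n (q * l) H ∧ SmoothC q f ∧ ElsC q f} : Set _).ncard : ℝ) -
      1 / ((m H : ℝ) + 1) * (1 / c)) atTop (𝓝 1) := by
    have h2 := (tendsto_one_div_add_atTop_nhds_zero_nat (𝕜 := ℝ)).comp hmtop
    have h3 := hlim.sub (h2.mul_const (1 / c))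
    rw [zero_mul, sub_zero] at h3
    exact h3
  refine tendsto_of_tendsto_of_tendsto_of_le_of_le' h1 tendsto_const_nhds ?_ ?_
  · filter_upwards [tendsto_atTop.mp hmtop (max 2 q), hpos] with H hH hcT
    have hmH2 : 2 ≤ m H := (le_max_left _ _).trans hH
    have hmHq : q ≤ m H := (le_max_right _ _).trans hH
    obtain ⟨hAH, hMH⟩ := hmspec H (by omega)
    have e1 := hA (m H) H hAH
    have hT0 : (0 : ℝ) < ((Fm n (q * l) H).ncard : ℝ) := by
      rw [Pool.Agent.Y994.HB.Fm_card]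
      positivity
    obtain ⟨T, hT⟩ : ∃ T : ℝ, T = ((Fm n (q * l) H).ncard : ℝ) := ⟨_, rfl⟩
    obtain ⟨b, hb⟩ : ∃ b : ℝ, b = (({f | f ∈ Fm n (q * l) H ∧ SmoothC q f ∧ ElsC q f} :
      Set _).ncard : ℝ) := ⟨_, rfl⟩
    rw [← hT] at e1 hcT hT0
    rw [← hb] at hcT ⊢
    have hb0 : 0 < b := lt_of_lt_of_le (by positivity) hcT
    have hsub : {f | f ∈ Fm n (q * l) H ∧ SmoothC q f ∧ ElsC q f ∧ WAC q l (m₀ H) H f} ⊆
        {f | f ∈ Fm n (q * l) H ∧ SmoothC q f ∧ ElsC q f ∧ WACP q l (m H) H f (PtC n (m H))} ∪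
        {f | f ∈ Fm n (q * l) H ∧ ¬ TestedC q (m H) (M (m H)) f (PtC n (m H))} := by
      rintro f ⟨hf, hs, hel, hw⟩
      by_cases ht : TestedC q (m H) (M (m H)) f (PtC n (m H))
      · left
        exact ⟨hf, hs, hel, fixC Pool.Agent.Y420.HB.t_LOC q l (m H) (M (m H)) H
          (Nat.cast_nonneg H) f _ (by omega) hmHq (hM (m H)) (hmH2.trans (hM (m H)))
          (wac_mono (Nat.cast_nonneg H) (by have := hM (m H); omega) hMH hw) ht⟩
      · right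
        exact ⟨hf, ht⟩
    have h5 := (Set.ncard_le_ncard hsub
      (((fm_fin n (q * l) H).subset (fun f hf => hf.1)).union
        ((fm_fin n (q * l) H).subset (fun f hf => hf.1)))).trans (Set.ncard_union_le _ _)
    have h7 := (Nat.cast_le (α := ℝ)).mpr h5
    rw [Nat.cast_add] at h7
    obtain ⟨a₀, ha₀⟩ : ∃ a₀ : ℝ, a₀ = (({f | f ∈ Fm n (q * l) H ∧ SmoothC q f ∧ ElsC q f ∧
      WAC q l (m₀ H) H f} : Set _).ncard : ℝ) := ⟨_, rfl⟩
    obtain ⟨a₁, ha₁⟩ : ∃ a₁ : ℝ, a₁ = (({f | f ∈ Fm n (q * l) H ∧ SmoothC q f ∧ ElsC q f ∧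
      WACP q l (m H) H f (PtC n (m H))} : Set _).ncard : ℝ) := ⟨_, rfl⟩
    rw [← ha₀, ← ha₁] at h7
    rw [← ha₀, ← ha₁]
    have h8 : a₀ - 1 / ((m H : ℝ) + 1) * T ≤ a₁ := by linarith
    have h9 : 1 / ((m H : ℝ) + 1) * T ≤ 1 / ((m H : ℝ) + 1) * (1 / c) * b := by
      have h10 : T ≤ 1 / c * b := by
        rw [one_div, ← div_eq_inv_mul, le_div_iff₀ hc]
        linarith
      have h11 := mul_le_mul_of_nonneg_left h10
        (by positivity : (0 : ℝ) ≤ 1 / ((m H : ℝ) + 1))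
      linarith
    rw [le_div_iff₀ hb0, sub_mul, div_mul_cancel₀ _ hb0.ne']
    linarith
  · filter_upwards with H
    apply div_le_one_of_le₀ _ (Nat.cast_nonneg _)
    have hsub : {f | f ∈ Fm n (q * l) H ∧ SmoothC q f ∧ ElsC q f ∧
        WACP q l (m H) H f (PtC n (m H))} ⊆
        {f | f ∈ Fm n (q * l) H ∧ SmoothC q f ∧ ElsC q f} :=
      fun f hf => ⟨hf.1, hf.2.1, hf.2.2.1⟩
    exact_mod_cast Set.ncard_le_ncard hsub ((fm_fin n (q * l) H).subset (fun f hf => hf.1))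

end Pool.Agent.Helper44q.R
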