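import Pool.Agent.Helper44q.R.Cyc

/-!
Project RHP (helper44): almost all forms pass the tests for cyclic covers.
-/

set_option autoImplicit false

namespace Pool.Agent.Helper44q.R

open Polynomial Filter Topology Pool.Agent.Y214.HB Pool.Agent.H90Q
open Pool.Agent.Y994.HB (TT pol coeff_pol hom_pol pol_inj Fm_eq box_fin Fm_card)

attribute [local instance] Pool.Agent.Y994.HB.instFtTT

variable {n : ℕ}

theorem fm_fin (n d H : ℕ) : (Fm n d H).Finite := by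
  rw [Fm_eq]
  exact (box_fin n d H).image _

theorem eval_pol {d : ℕ} (x : Fin (n + 1) → ℤ) (c : TT n d → ℤ) :
    MvPolynomial.eval x (pol c) = ∑ t : TT n d, (∏ i, x i ^ (t.1 i)) * c t := by
  unfold pol
  rw [map_sum]
  refine Finset.sum_congr rfl fun t _ => ?_
  rw [MvPolynomial.eval_monomial, Finsupp.prod_fintype _ _ (fun i => pow_zero _), mul_comm]

theorem one_testC (hBOX : S_BOX) (hPROD : S_PROD) (d q : ℕ) (L : Set ℕ)
    (hL : ∀ p ∈ L, p.Prime) (hD : Dv L) (b : ℕ → Fin (n + 1) → ℤ)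
    (hb : ∀ p ∈ L, ¬ (p : ℤ) ∣ b p 0) (ε : ℝ) (hε : 0 < ε) (m : ℕ) :
    ∃ M H₀ : ℕ, m ≤ M ∧ ∀ H : ℕ, H₀ ≤ H →
      (({f | f ∈ Fm n d H ∧ ∀ p ∈ L, m < p → p ≤ M → ¬ TestC q f p (b p)} : Set _).ncard : ℝ) ≤
        ε * ((Fm n d H).ncard : ℝ) := by
  obtain ⟨M, H₀, hM, h⟩ := den_hyp hBOX hPROD (TT n d) L hL hD
    (fun p t => ∏ i, hat (b p) i ^ (t.1 i))
    (fun p hp => ⟨⟨Finsupp.single 0 d, by simp⟩, by
      have h1 : ∏ i, hat (b p) i ^ ((Finsupp.single (0 : Fin (n + 1)) d) i) = 1 := by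
        refine Finset.prod_eq_one fun i _ => ?_
        refine Fin.cases ?_ (fun j => ?_) i
        · simp [hat]
        · rw [Finsupp.single_apply, if_neg (Fin.succ_ne_zero j).symm, pow_zero]
      simp only [h1]
      intro h2
      have h3 : p ∣ 1 := by exact_mod_cast h2
      exact (hL p hp).one_lt.ne' (Nat.dvd_one.mp h3)⟩) ε hε m
  refine ⟨M, H₀, hM, fun H hH => ?_⟩
  have h1 := h H hH (fun p => b p 0 ^ q)
  rw [Fm_card]
  refine le_trans ?_ h1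
  have hsub : {f | f ∈ Fm n d H ∧ ∀ p ∈ L, m < p → p ≤ M → ¬ TestC q f p (b p)} ⊆
      pol '' {c : TT n d → ℤ | (∀ t, |c t| ≤ (H : ℤ)) ∧
        ∀ p ∈ L, m < p → p ≤ M → ¬ (p : ℤ) ∣ ∑ t : TT n d, (∏ i, hat (b p) i ^ (t.1 i)) * c t -
          b p 0 ^ q} := by
    rintro f ⟨hf, hno⟩
    rw [Fm_eq] at hf
    obtain ⟨c, hc, rfl⟩ := hf
    refine ⟨c, ⟨hc, fun p hp h1 h2 h3 => hno p hp h1 h2 ⟨hb p hp, ?_⟩⟩, rfl⟩
    rw [eval_pol]
    exact h3
  have hfin : {c : TT n d → ℤ | (∀ t, |c t| ≤ (H : ℤ)) ∧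
        ∀ p ∈ L, m < p → p ≤ M → ¬ (p : ℤ) ∣ ∑ t : TT n d, (∏ i, hat (b p) i ^ (t.1 i)) * c t -
          b p 0 ^ q}.Finite := (box_fin n d H).subset fun c hc => hc.1
  have h2 := Set.ncard_le_ncard hsub (hfin.image _)
  rw [Set.ncard_image_of_injective _ pol_inj] at h2
  exact_mod_cast h2

/-- all the tests are passed -/
def AllC (q : ℕ) {k : ℕ} (Q : Fin k → (MvPolynomial (Fin (n + 1)) ℤ)[X]) (m M : ℕ)
    (f : MvPolynomial (Fin (n + 1)) ℤ) : Prop :=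
  ∃ (l : Fin k → ℕ) (b : Fin k → Fin (n + 1) → ℤ),
    Function.Injective l ∧ ∀ i, (l i).Prime ∧ m < l i ∧ l i ≤ M ∧ Obs (Q i) (l i) (b i) ∧
      TestC q f (l i) (b i)

/-- the tests for finitely many polynomials -/
theorem tests_allC (hBOX : S_BOX) (hPROD : S_PROD) (d q : ℕ) :
    ∀ (k : ℕ) (Q : Fin k → (MvPolynomial (Fin (n + 1)) ℤ)[X]), (∀ i, Base0 (Q i)) →
    ∀ (m : ℕ) (ε : ℝ), 0 < ε → ∃ M H₀ : ℕ, m ≤ M ∧ ∀ H : ℕ, H₀ ≤ H →
      (({f | f ∈ Fm n d H ∧ ¬ AllC q Q m M f} : Set _).ncard : ℝ) ≤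
        ε * ((Fm n d H).ncard : ℝ) := by
  intro k
  induction k with
  | zero =>
    intro Q _ m ε hε
    refine ⟨m, 0, le_rfl, fun H _ => ?_⟩
    have h0 : ({f | f ∈ Fm n d H ∧ ¬ AllC q Q m m f} : Set _) = ∅ := by
      rw [Set.eq_empty_iff_forall_notMem]
      rintro f ⟨-, hf⟩
      exact hf ⟨Fin.elim0, Fin.elim0, fun i => i.elim0, fun i => i.elim0⟩
    rw [h0, Set.ncard_empty, Nat.cast_zero]
    positivity
  | succ k ih =>
    intro Q hQ m ε hε
    obtain ⟨L, hLdef⟩ : ∃ L : Set ℕ, L = {p : ℕ | p.Prime ∧ ∃ a : Fin (n + 1) → ℤ,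
        ¬ (p : ℤ) ∣ a 0 ∧ Obs (Q 0) p a} := ⟨_, rfl⟩
    have hex : ∀ p : ℕ, ∃ a : Fin (n + 1) → ℤ, p ∈ L → ¬ (p : ℤ) ∣ a 0 ∧ Obs (Q 0) p a := by
      intro p
      by_cases hp : p ∈ L
      · rw [hLdef] at hp
        obtain ⟨h1, a, ha⟩ := hp
        exact ⟨a, fun _ => ha⟩
      · exact ⟨0, fun h => absurd h hp⟩
    choose b hb using hex
    have hLp : ∀ p ∈ L, p.Prime := fun p hp => by
      rw [hLdef] at hp
      exact hp.1
    have hLD : Dv L := by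
      rw [hLdef]
      exact hQ 0
    obtain ⟨M₁, A₁, hM₁, hA₁⟩ := one_testC hBOX hPROD d q L hLp hLD b
      (fun p hp => (hb p hp).1) (ε / 2) (half_pos hε) m
    obtain ⟨M₂, A₂, hM₂, hA₂⟩ := ih (fun i => Q i.succ) (fun i => hQ i.succ) M₁ (ε / 2)
      (half_pos hε)
    refine ⟨M₂, max A₁ A₂, hM₁.trans hM₂, fun A hA => ?_⟩
    have h1 := hA₁ A ((le_max_left _ _).trans hA)
    have h2 := hA₂ A ((le_max_right _ _).trans hA)
    have hsub : {f | f ∈ Fm n d A ∧ ¬ AllC q Q m M₂ f} ⊆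
        {f | f ∈ Fm n d A ∧ ∀ p ∈ L, m < p → p ≤ M₁ → ¬ TestC q f p (b p)} ∪
        {f | f ∈ Fm n d A ∧ ¬ AllC q (fun i => Q i.succ) M₁ M₂ f} := by
      rintro f ⟨hf, hno⟩
      by_contra hcon
      rw [Set.mem_union, not_or] at hcon
      obtain ⟨hc1, hc2⟩ := hcon
      have h3 : ∃ p ∈ L, m < p ∧ p ≤ M₁ ∧ TestC q f p (b p) := by
        by_contra h
        push Not at h
        exact hc1 ⟨hf, fun p hp h1 h2 => h p hp h1 h2⟩
      have h4 : AllC q (fun i => Q i.succ) M₁ M₂ f := by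
        by_contra h
        exact hc2 ⟨hf, h⟩
      obtain ⟨p, hp, hp1, hp2, hp3⟩ := h3
      obtain ⟨l, c, hl, hc⟩ := h4
      apply hno
      refine ⟨Fin.cons p l, Fin.cons (b p) c, ?_, ?_⟩
      · rw [Fin.cons_injective_iff]
        refine ⟨?_, hl⟩
        rintro ⟨i, hi⟩
        have := (hc i).2.1
        omega
      · intro i
        refine Fin.cases ?_ (fun i => ?_) i
        · simp only [Fin.cons_zero]
          exact ⟨hLp p hp, hp1, hp2.trans hM₂, (hb p hp).2, hp3⟩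
        · simp only [Fin.cons_succ]
          exact ⟨(hc i).1, lt_of_le_of_lt hM₁ (hc i).2.1, (hc i).2.2.1, (hc i).2.2.2.1,
            (hc i).2.2.2.2⟩
    have h5 := Set.ncard_le_ncard hsub
      (((fm_fin n d A).subset (fun f hf => hf.1)).union ((fm_fin n d A).subset (fun f hf => hf.1)))
    have h6 := (h5.trans (Set.ncard_union_le _ _))
    have h7 := (Nat.cast_le (α := ℝ)).mpr h6
    rw [Nat.cast_add] at h7
    linarith

theorem tested_allC (hBOX : S_BOX) (hPROD : S_PROD) (hFAC : S_FAC) (h1 : S_SPEC) (h2 : S_NR)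
    (d q : ℕ) (P : (MvPolynomial (Fin (n + 1)) ℤ)[X]) (hP : NoRoot P) (m : ℕ) (ε : ℝ)
    (hε : 0 < ε) :
    ∃ M H₀ : ℕ, m ≤ M ∧ ∀ H : ℕ, H₀ ≤ H →
      (({f | f ∈ Fm n d H ∧ ¬ TestedC q m M f P} : Set _).ncard : ℝ) ≤
        ε * ((Fm n d H).ncard : ℝ) := by
  obtain ⟨k, Q, c, hprod, hK⟩ := hFAC n P hP
  have hB : ∀ i : Fin (k + 1), Base0 ((Fin.cons (C 1) Q : Fin (k + 1) → _) i) := by
    intro i
    refine Fin.cases ?_ (fun i => ?_) i
    · rw [Fin.cons_zero]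
      exact base0_const 1 one_ne_zero
    · rw [Fin.cons_succ]
      exact base0 h1 h2 _ (hK i)
  obtain ⟨M, A₀, hM, hA⟩ := tests_allC hBOX hPROD d q (k + 1) (Fin.cons (C 1) Q) hB m ε hε
  refine ⟨M, A₀, hM, fun A hA0 => ?_⟩
  refine le_trans ?_ (hA A hA0)
  have hsub : {f | f ∈ Fm n d A ∧ ¬ TestedC q m M f P} ⊆
      {f | f ∈ Fm n d A ∧ ¬ AllC q (Fin.cons (C 1) Q) m M f} := by
    rintro f ⟨hf, hno⟩
    refine ⟨hf, ?_⟩
    rintro ⟨l, b, hl, h⟩
    refine hno ⟨k + 1, Fin.cons (C 1) Q, c, l, b, by omega, ?_, hl, h⟩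
    rw [Fin.prod_univ_succ]
    simp only [Fin.cons_zero, Fin.cons_succ]
    rw [← hprod, C_1, one_mul]
  exact_mod_cast Set.ncard_le_ncard hsub ((fm_fin n d A).subset (fun f hf => hf.1))

/-- the covers of complexity at most `m` -/
def CovC (n m : ℕ) : Set (MvPolynomial (Fin (n + 1)) ℤ)[X] :=
  {P | P.natDegree ≤ m ∧ (∀ k, (P.coeff k).totalDegree ≤ m) ∧
    (∀ k u, |(P.coeff k).coeff u| ≤ (m : ℤ)) ∧ NoRoot P}

theorem covC_fin (n m : ℕ) : (CovC n m).Finite := by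
  let I : Type := Fin (m + 1) × (Fin (n + 1) → Fin (m + 1))
  let ix : (Fin (n + 1) → Fin (m + 1)) → (Fin (n + 1) →₀ ℕ) := fun u =>
    Finsupp.equivFunOnFinite.symm (fun i => (u i : ℕ))
  let f : (MvPolynomial (Fin (n + 1)) ℤ)[X] → (I → ℤ) := fun P i =>
    (P.coeff i.1).coeff (ix i.2)
  have hfin : (Set.pi Set.univ (fun _ : I => Set.Icc (-(m:ℤ)) m)).Finite :=
    Set.Finite.pi fun _ => Set.finite_Icc _ _
  refine Set.Finite.of_injOn (f := f) (t := Set.pi Set.univ (fun _ : I => Set.Icc (-(m:ℤ)) m))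
    ?_ ?_ hfin
  · rintro P ⟨_, _, hP, _⟩ i _
    exact abs_le.1 (hP i.1 (ix i.2))
  · rintro P ⟨hPd, hPD, hP, _⟩ Q ⟨hQd, hQE, hQ, _⟩ hPQ
    ext k u
    by_cases hk : k ≤ m
    · by_cases hu : ∀ i, u i ≤ m
      · have h1 := congrFun hPQ (⟨k, by omega⟩, fun i => ⟨u i, by have := hu i; omega⟩)
        have h2 : ix (fun i => ⟨u i, by have := hu i; omega⟩) = u := by
          ext i
          simp [ix]
        simp only [f] at h1
        rw [h2] at h1
        exact h1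
      · push Not at hu
        obtain ⟨i, hi⟩ := hu
        have hdeg : m < u.degree := lt_of_lt_of_le hi (Finsupp.le_degree i u)
        have key : ∀ g : MvPolynomial (Fin (n + 1)) ℤ, g.totalDegree ≤ m → g.coeff u = 0 := by
          intro g hg
          by_contra hne
          have h3 : u ∈ g.support := MvPolynomial.mem_support_iff.mpr hne
          have h4 := MvPolynomial.le_totalDegree h3
          have h5 : (u.sum fun _ e => e) = u.degree := rfl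
          omega
        rw [key _ (hPD k), key _ (hQE k)]
    · rw [coeff_eq_zero_of_natDegree_lt (by omega), coeff_eq_zero_of_natDegree_lt (by omega)]

/-- the product of all the covers of complexity at most `m` -/
noncomputable def PtC (n m : ℕ) : (MvPolynomial (Fin (n + 1)) ℤ)[X] :=
  ∏ P ∈ (covC_fin n m).toFinset, P

theorem ptC_noRoot (n m : ℕ) : NoRoot (PtC n m) := by
  unfold PtC
  refine Finset.prod_induction _ NoRoot (fun _ _ => noRoot_mul) noRoot_one (fun P hP => ?_)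
  rw [Set.Finite.mem_toFinset] at hP
  exact hP.2.2.2

theorem ptC_eval {m : ℕ} {x : Fin (n + 1) → ℚ} {w : ℚ}
    (h : ((PtC n m).map (evQ x)).eval w ≠ 0) {P : (MvPolynomial (Fin (n + 1)) ℤ)[X]}
    (hP : P ∈ CovC n m) : (P.map (evQ x)).eval w ≠ 0 := by
  intro h0
  apply h
  unfold PtC
  rw [Polynomial.map_prod, Polynomial.eval_prod]
  exact Finset.prod_eq_zero ((covC_fin n m).mem_toFinset.mpr hP) h0

end Pool.Agent.Helper44q.R
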