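import Mathlib
import Pool.Agent.Y214.HB.Stm
import Pool.Agent.DPO.Stm2

/-!
Project RHP (helper44): local points of the surfaces `y ^ 2 = x ^ 3 + a (u, v) x + f (u, v)`.
-/

set_option autoImplicit false

namespace Pool.Agent.Helper44q.R

open Polynomial Pool.Agent.Y214.HB Pool.Agent.DPO

/-- the affine coordinates `y / u ^ 3`, `v / u`, `x / u ^ 2` of a point with `u ≠ 0` -/
def aff (z : Fin 4 → ℚ) : Fin 3 → ℚ := ![z 3 / z 0 ^ 3, z 1 / z 0, z 2 / z 0 ^ 2]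

/-- modulo `p` the vector `b` gives a point of the affine surface whose coordinate `y` is not zero -/
def TestD (a : Fin 5 → ℤ) (f : Fin 7 → ℤ) (p : ℕ) (b : Fin 3 → ℤ) : Prop :=
  ¬ (p : ℤ) ∣ b 0 ∧ (p : ℤ) ∣ bf f (1 : ℤ) (b 1) - (b 0 ^ 2 - b 2 ^ 3 - bf a (1 : ℤ) (b 1) * b 2)

/-- `f` passes the tests at distinct primes between `m` and `M` for factors of `P` -/
def TestedD (m M : ℕ) (a : Fin 5 → ℤ) (f : Fin 7 → ℤ)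
    (P : (MvPolynomial (Fin 3) ℤ)[X]) : Prop :=
  ∃ (k : ℕ) (Q : Fin k → (MvPolynomial (Fin 3) ℤ)[X]) (c : MvPolynomial (Fin 3) ℤ)
    (l : Fin k → ℕ) (b : Fin k → Fin 3 → ℤ), 1 ≤ k ∧ C c * P = ∏ i, Q i ∧
    Function.Injective l ∧ ∀ i, (l i).Prime ∧ m < l i ∧ l i ≤ M ∧ Obs (Q i) (l i) (b i) ∧
      TestD a f (l i) (b i)

/-- weak approximation to precision `1 / m` by points with `u ≠ 0` such that `P(x, w)` has no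
rational root `w` -/
def WAFP (m : ℕ) (H : ℝ) (a : Fin 5 → ℤ) (f : Fin 7 → ℤ) (P : (MvPolynomial (Fin 3) ℤ)[X]) : Prop :=
  ∀ (Z : ∀ (p : ℕ) [Fact p.Prime], Fin 4 → ℚ_[p]) (W : Fin 4 → ℝ),
    (∀ (p : ℕ) [Fact p.Prime], IsPt a f (Z p)) → IsPt a f W →
    ∃ z : Fin 4 → ℚ, IsPt a f z ∧
      (∀ (p : ℕ) [Fact p.Prime], p ≤ m → ∃ α β : ℚ_[p], α ≠ 0 ∧ NormP p β (Z p) ∧
        ∀ i, ‖α ^ wt i * (z i : ℚ_[p]) - β ^ wt i * Z p i‖ ≤ 1 / m) ∧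
      (∃ α β : ℝ, α ≠ 0 ∧ NormR H β W ∧
        ∀ i, |α ^ wt i * (z i : ℝ) - β ^ wt i * W i| ≤ sc H i / m) ∧
      z 0 ≠ 0 ∧ ∀ w : ℚ, (P.map (evQ (aff z))).eval w ≠ 0

/-- Hensel lifting of a square root -/
theorem hensel_sqrt (p : ℕ) [Fact p.Prime] (b c : ℤ) (hb : ¬ (p : ℤ) ∣ b)
    (hc : ‖((c - b ^ 2 : ℤ) : ℤ_[p])‖ < ‖(2 : ℤ_[p])‖ ^ 2) :
    ∃ y : ℤ_[p], (y : ℚ_[p]) ^ 2 = (c : ℚ_[p]) ∧ ‖y - (b : ℤ_[p])‖ < ‖(2 : ℤ_[p])‖ := by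
  have hbn : ‖(b : ℤ_[p])‖ = 1 := by
    refine le_antisymm (PadicInt.norm_le_one _) ?_
    by_contra h
    push Not at h
    exact hb ((PadicInt.norm_int_lt_one_iff_dvd _).1 h)
  obtain ⟨F, hF⟩ : ∃ F : ℤ_[p][X], F = X ^ 2 - C (c : ℤ_[p]) := ⟨_, rfl⟩
  have e1 : ∀ x : ℤ_[p], Polynomial.aeval x F = x ^ 2 - (c : ℤ_[p]) := by
    intro x
    rw [hF]
    simp
  have e2 : ∀ x : ℤ_[p], Polynomial.aeval x (derivative F) = 2 * x := by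
    intro x
    rw [hF, derivative_sub, derivative_C, sub_zero, derivative_X_pow]
    simp only [map_mul, Polynomial.aeval_X, Polynomial.aeval_C, map_pow]
    norm_num
  have n2 : ‖Polynomial.aeval (b : ℤ_[p]) (derivative F)‖ = ‖(2 : ℤ_[p])‖ := by
    rw [e2, norm_mul, hbn, mul_one]
  have n1 : ‖Polynomial.aeval (b : ℤ_[p]) F‖ < ‖Polynomial.aeval (b : ℤ_[p]) (derivative F)‖ ^ 2 := by
    rw [n2, e1, norm_sub_rev]
    have : (c : ℤ_[p]) - (b : ℤ_[p]) ^ 2 = ((c - b ^ 2 : ℤ) : ℤ_[p]) := by push_cast; ring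
    rw [this]
    exact hc
  obtain ⟨y, hy1, hy2, -⟩ := hensels_lemma n1
  refine ⟨y, ?_, ?_⟩
  · rw [e1] at hy1
    have e3 : ((y ^ 2 : ℤ_[p]) : ℚ_[p]) = (((c : ℤ) : ℤ_[p]) : ℚ_[p]) := by
      rw [sub_eq_zero.mp hy1]
    rw [PadicInt.coe_pow, PadicInt.coe_intCast] at e3
    exact e3
  · rw [n2] at hy2
    exact hy2

theorem bf_cast {d : ℕ} {R : Type*} [CommRing R] (g : Fin (d + 1) → ℤ) (u v : ℤ) :
    bf g (u : R) (v : R) = ((bf g u v : ℤ) : R) := by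
  unfold bf
  push_cast
  rfl

theorem norm_two_padic {p : ℕ} [Fact p.Prime] (hp : p ≠ 2) : ‖(2 : ℤ_[p])‖ = 1 := by
  refine le_antisymm (PadicInt.norm_le_one _) ?_
  by_contra h
  push Not at h
  have h1 : ‖((2 : ℤ) : ℤ_[p])‖ < 1 := by exact_mod_cast h
  have h2 := (PadicInt.norm_int_lt_one_iff_dvd _).1 h1
  have h3 : p ∣ 2 := by exact_mod_cast h2
  exact hp ((Nat.prime_dvd_prime_iff_eq (Fact.out) Nat.prime_two).mp h3)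

/-- the lift of a point modulo `p` -/
theorem lift_test (p : ℕ) [Fact p.Prime] (hp : p ≠ 2) (a : Fin 5 → ℤ) (f : Fin 7 → ℤ)
    (b : Fin 3 → ℤ) (h : TestD a f p b) :
    ∃ Z : Fin 4 → ℚ_[p], IsPt a f Z ∧ Z 0 = 1 ∧ (∀ i, ‖Z i‖ ≤ 1) ∧ ‖Z 3 - (b 0 : ℚ_[p])‖ < 1 ∧
      ‖Z 1 - (b 1 : ℚ_[p])‖ < 1 ∧ ‖Z 2 - (b 2 : ℚ_[p])‖ < 1 := by
  obtain ⟨h0, h1⟩ := h
  have h2 : (p : ℤ) ∣ (b 2 ^ 3 + bf a (1 : ℤ) (b 1) * b 2 + bf f (1 : ℤ) (b 1)) - b 0 ^ 2 := by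
    have e : (b 2 ^ 3 + bf a (1 : ℤ) (b 1) * b 2 + bf f (1 : ℤ) (b 1)) - b 0 ^ 2 =
        bf f (1 : ℤ) (b 1) - (b 0 ^ 2 - b 2 ^ 3 - bf a (1 : ℤ) (b 1) * b 2) := by ring
    rw [e]
    exact h1
  obtain ⟨y, hy1, hy2⟩ := hensel_sqrt p (b 0) _ h0 (by
    rw [norm_two_padic hp, one_pow]
    exact (PadicInt.norm_int_lt_one_iff_dvd _).2 h2)
  rw [norm_two_padic hp] at hy2
  refine ⟨![1, (b 1 : ℚ_[p]), (b 2 : ℚ_[p]), (y : ℚ_[p])], ⟨Or.inl ?_, ?_⟩, rfl, ?_, ?_, ?_, ?_⟩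
  · change (1 : ℚ_[p]) ≠ 0
    exact one_ne_zero
  · change (y : ℚ_[p]) ^ 2 = (b 2 : ℚ_[p]) ^ 3 + bf a (1 : ℚ_[p]) (b 1 : ℚ_[p]) * (b 2 : ℚ_[p]) +
      bf f (1 : ℚ_[p]) (b 1 : ℚ_[p])
    have e1 : bf a (1 : ℚ_[p]) (b 1 : ℚ_[p]) = ((bf a (1 : ℤ) (b 1) : ℤ) : ℚ_[p]) := by
      rw [← bf_cast, Int.cast_one]
    have e2 : bf f (1 : ℚ_[p]) (b 1 : ℚ_[p]) = ((bf f (1 : ℤ) (b 1) : ℤ) : ℚ_[p]) := by
      rw [← bf_cast, Int.cast_one]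
    rw [e1, e2]
    rw [hy1]
    push_cast
    rfl
  · intro i
    fin_cases i
    · change ‖(1 : ℚ_[p])‖ ≤ 1
      rw [norm_one]
    · exact Padic.norm_int_le_one _
    · exact Padic.norm_int_le_one _
    · exact y.2
  · change ‖(y : ℚ_[p]) - (b 0 : ℚ_[p])‖ < 1
    have : (y : ℚ_[p]) - (b 0 : ℚ_[p]) = ((y - (b 0 : ℤ_[p]) : ℤ_[p]) : ℚ_[p]) := by push_cast; rfl
    rw [this]
    exact hy2
  · change ‖(b 1 : ℚ_[p]) - (b 1 : ℚ_[p])‖ < 1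
    rw [sub_self, norm_zero]
    exact one_pos
  · change ‖(b 2 : ℚ_[p]) - (b 2 : ℚ_[p])‖ < 1
    rw [sub_self, norm_zero]
    exact one_pos

theorem add_lt {p : ℕ} [Fact p.Prime] {u v : ℚ_[p]} (hu : ‖u‖ < 1) (hv : ‖v‖ < 1) :
    ‖u + v‖ < 1 :=
  lt_of_le_of_lt (IsUltrametricDist.norm_add_le_max _ _) (max_lt hu hv)

theorem sub_lt' {p : ℕ} [Fact p.Prime] {u v : ℚ_[p]} (hu : ‖u‖ < 1) (hv : ‖v‖ < 1) :
    ‖u - v‖ < 1 := by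
  rw [sub_eq_add_neg]
  exact add_lt hu (by rwa [norm_neg])

theorem mul_lt' {p : ℕ} [Fact p.Prime] {u v : ℚ_[p]} (hu : ‖u‖ ≤ 1) (hv : ‖v‖ < 1) :
    ‖u * v‖ < 1 := by
  rw [norm_mul]
  exact lt_of_le_of_lt (mul_le_of_le_one_left (norm_nonneg _) hu) hv

theorem pow_near {p : ℕ} [Fact p.Prime] {u β : ℚ_[p]} (hu : ‖u‖ = 1) (hβ : ‖β‖ = 1)
    (h : ‖u - β‖ < 1) (k : ℕ) : ‖u ^ k - β ^ k‖ < 1 := by
  induction k with
  | zero => simp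
  | succ k ih =>
    have e : u ^ (k + 1) - β ^ (k + 1) = u * (u ^ k - β ^ k) + β ^ k * (u - β) := by ring
    rw [e]
    refine add_lt (mul_lt' hu.le ih) (mul_lt' ?_ h)
    rw [norm_pow, hβ, one_pow]

/-- the closeness of one coordinate -/
theorem near_coord {p : ℕ} [Fact p.Prime] {u β t Z b : ℚ_[p]} (hu : ‖u‖ = 1) (hβ : ‖β‖ = 1)
    (h : ‖u - β‖ < 1) (k : ℕ) (ht : ‖t - β ^ k * Z‖ < 1) (hb : ‖b‖ ≤ 1) (hZ : ‖Z - b‖ < 1) :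
    ‖t / u ^ k - b‖ < 1 := by
  have hu0 : u ≠ 0 := by
    intro h0
    rw [h0, norm_zero] at hu
    exact zero_ne_one hu
  have e : t / u ^ k - b = (t - b * u ^ k) / u ^ k := by
    field_simp
  rw [e, norm_div, norm_pow, hu, one_pow, div_one]
  have e2 : t - b * u ^ k = (t - β ^ k * Z) + β ^ k * (Z - b) - b * (u ^ k - β ^ k) := by ring
  rw [e2]
  refine sub_lt' (add_lt ht (mul_lt' ?_ hZ)) (mul_lt' hb (pow_near hu hβ h k))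
  rw [norm_pow, hβ, one_pow]

/-- a rational point near the lift reduces to the point modulo `p` -/
theorem near_test (p : ℕ) [Fact p.Prime] (b : Fin 3 → ℤ) (Z : Fin 4 → ℚ_[p]) (hZ0 : Z 0 = 1)
    (hZn : ∀ i, ‖Z i‖ ≤ 1) (h0 : ‖Z 3 - (b 0 : ℚ_[p])‖ < 1) (h1 : ‖Z 1 - (b 1 : ℚ_[p])‖ < 1)
    (h2 : ‖Z 2 - (b 2 : ℚ_[p])‖ < 1) (z : Fin 4 → ℚ) (α β : ℚ_[p]) (hα : α ≠ 0)
    (hN : NormP p β Z) (hz : ∀ i, ‖α ^ wt i * (z i : ℚ_[p]) - β ^ wt i * Z i‖ < 1) :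
    z 0 ≠ 0 ∧ ∀ i, ‖(aff z i : ℚ_[p]) - (b i : ℚ_[p])‖ < 1 := by
  obtain ⟨hN1, j, hN2⟩ := hN
  have hβ1 : ‖β‖ ≤ 1 := by
    have h := hN1 0
    rw [hZ0, mul_one] at h
    have e : β ^ wt 0 = β := by
      have : wt 0 = 1 := rfl
      rw [this, pow_one]
    rwa [e] at h
  have hβ : ‖β‖ = 1 := by
    refine le_antisymm hβ1 ?_
    by_contra hlt
    push Not at hlt
    have h3 : ‖β ^ wt j * Z j‖ < 1 := by
      rw [mul_comm]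
      refine mul_lt' (hZn j) ?_
      rw [norm_pow]
      refine pow_lt_one₀ (norm_nonneg _) hlt ?_
      fin_cases j <;> decide
    exact absurd hN2 (ne_of_lt h3)
  have hz0 := hz 0
  have hw0 : wt 0 = 1 := rfl
  have hw1 : wt 1 = 1 := rfl
  have hw2 : wt 2 = 2 := rfl
  have hw3 : wt 3 = 3 := rfl
  rw [hw0, pow_one, pow_one, hZ0, mul_one] at hz0
  have hu : ‖α * (z 0 : ℚ_[p])‖ = 1 := by
    have e : α * (z 0 : ℚ_[p]) = (α * (z 0 : ℚ_[p]) - β) + β := by ring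
    rw [e]
    rw [IsUltrametricDist.norm_add_eq_max_of_norm_ne_norm (by rw [hβ]; exact ne_of_lt hz0), hβ]
    exact max_eq_right hz0.le
  have hz00 : z 0 ≠ 0 := by
    intro h
    rw [h, Rat.cast_zero, mul_zero, norm_zero] at hu
    exact zero_ne_one hu
  refine ⟨hz00, ?_⟩
  have hz00' : (z 0 : ℚ_[p]) ≠ 0 := by exact_mod_cast hz00
  have key : ∀ (i : Fin 4) (bb : ℤ), ‖Z i - (bb : ℚ_[p])‖ < 1 →
      ‖(z i : ℚ_[p]) / (z 0 : ℚ_[p]) ^ wt i - (bb : ℚ_[p])‖ < 1 := by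
    intro i bb hb
    have h3 := near_coord hu hβ hz0 (wt i) (hz i) (Padic.norm_int_le_one bb) hb
    have e : α ^ wt i * (z i : ℚ_[p]) / (α * (z 0 : ℚ_[p])) ^ wt i =
        (z i : ℚ_[p]) / (z 0 : ℚ_[p]) ^ wt i := by
      rw [mul_pow, mul_div_mul_left _ _ (pow_ne_zero _ hα)]
    rwa [e] at h3
  intro i
  fin_cases i
  · have h3 := key 3 (b 0) h0
    rw [hw3] at h3
    change ‖((z 3 / z 0 ^ 3 : ℚ) : ℚ_[p]) - (b 0 : ℚ_[p])‖ < 1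
    push_cast
    exact h3
  · have h3 := key 1 (b 1) h1
    rw [hw1, pow_one] at h3
    change ‖((z 1 / z 0 : ℚ) : ℚ_[p]) - (b 1 : ℚ_[p])‖ < 1
    push_cast
    exact h3
  · have h3 := key 2 (b 2) h2
    rw [hw2] at h3
    change ‖((z 2 / z 0 ^ 2 : ℚ) : ℚ_[p]) - (b 2 : ℚ_[p])‖ < 1
    push_cast
    exact h3

/-- the conditions on the new local point -/
def CdD {k : ℕ} (a : Fin 5 → ℤ) (f : Fin 7 → ℤ) (l : Fin k → ℕ) (b : Fin k → Fin 3 → ℤ)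
    (p : ℕ) [Fact p.Prime] (Z : Fin 4 → ℚ_[p]) : Prop :=
  IsPt a f Z ∧ Z 0 = 1 ∧ (∀ i, ‖Z i‖ ≤ 1) ∧
    ∀ i, l i = p → ‖Z 3 - (b i 0 : ℚ_[p])‖ < 1 ∧
      ‖Z 1 - (b i 1 : ℚ_[p])‖ < 1 ∧ ‖Z 2 - (b i 2 : ℚ_[p])‖ < 1

theorem fixD (h1 : S_LOC) (m M : ℕ) (H : ℝ) (hH : 0 ≤ H) (a : Fin 5 → ℤ) (f : Fin 7 → ℤ)
    (P : (MvPolynomial (Fin 3) ℤ)[X]) (hm : 2 ≤ m) (hmM : m ≤ M) (hWA : WAF M H a f)
    (hT : TestedD m M a f P) : WAFP m H a f P := by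
  classical
  intro Z W hZ hW
  obtain ⟨k, Q, c, l, b, hk, hcP, hinj, hl⟩ := hT
  have hFact : ∀ i, Fact (l i).Prime := fun i => ⟨(hl i).1⟩
  have hl2 : ∀ i, l i ≠ 2 := fun i h => by have := (hl i).2.1; omega
  have hmR : (0 : ℝ) < m := by
    have : 0 < m := by omega
    exact_mod_cast this
  have hmMR : (m : ℝ) ≤ M := by exact_mod_cast hmM
  have hMR : (2 : ℝ) ≤ M := by
    have : (2 : ℝ) ≤ m := by exact_mod_cast hm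
    linarith
  let Z' : ∀ (p : ℕ) [Fact p.Prime], Fin 4 → ℚ_[p] := fun p _ =>
    if h : (∃ i, l i = p) ∧ ∃ v : Fin 4 → ℚ_[p], CdD a f l b p v then h.2.choose else Z p
  have hZ'1 : ∀ (p : ℕ) [Fact p.Prime], (¬ ∃ i, l i = p) → Z' p = Z p := by
    intro p _ h
    exact dif_neg fun h' => h h'.1
  have hZ'2 : ∀ i, CdD a f l b (l i) (Z' (l i)) := by
    intro i
    have hex : (∃ j, l j = l i) ∧ ∃ v : Fin 4 → ℚ_[l i], CdD a f l b (l i) v := by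
      refine ⟨⟨i, rfl⟩, ?_⟩
      obtain ⟨v, hv1, hv2, hv3, hv4, hv5, hv6⟩ := lift_test (l i) (hl2 i) a f (b i)
        (hl i).2.2.2.2
      refine ⟨v, hv1, hv2, hv3, fun j hj => ?_⟩
      rw [hinj hj]
      exact ⟨hv4, hv5, hv6⟩
    have e : Z' (l i) = hex.2.choose := dif_pos hex
    rw [e]
    exact hex.2.choose_spec
  have hZ' : ∀ (p : ℕ) [Fact p.Prime], IsPt a f (Z' p) := by
    intro p _
    by_cases h : (∃ i, l i = p) ∧ ∃ v : Fin 4 → ℚ_[p], CdD a f l b p v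
    · have e : Z' p = h.2.choose := dif_pos h
      rw [e]
      exact h.2.choose_spec.1
    · have e : Z' p = Z p := dif_neg h
      rw [e]
      exact hZ p
  obtain ⟨z, hz, hzp, hzr⟩ := hWA Z' W hZ' hW
  have hnear : ∀ i, z 0 ≠ 0 ∧ ∀ j, ‖(aff z j : ℚ_[l i]) - (b i j : ℚ_[l i])‖ < 1 := by
    intro i
    obtain ⟨α, β, hα, hN, hc⟩ := hzp (l i) (hl i).2.2.1
    obtain ⟨hv1, hv2, hv3, hv4⟩ := hZ'2 i
    obtain ⟨g1, g2, g3⟩ := hv4 i rfl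
    refine near_test (l i) (b i) (Z' (l i)) hv2 hv3 g1 g2 g3 z α β hα hN fun j => ?_
    refine lt_of_le_of_lt (hc j) ?_
    rw [div_lt_one (by linarith)]
    linarith
  refine ⟨z, hz, ?_, ?_, (hnear ⟨0, hk⟩).1, ?_⟩
  · intro p _ hp
    obtain ⟨α, β, hα, hN, hc⟩ := hzp p (hp.trans hmM)
    have e3 : Z' p = Z p := hZ'1 p fun ⟨i, hi⟩ => by
      have := (hl i).2.1
      omega
    rw [e3] at hN hc
    exact ⟨α, β, hα, hN, fun i => (hc i).trans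
      (div_le_div_of_nonneg_left zero_le_one hmR hmMR)⟩
  · obtain ⟨α, β, hα, hN, hc⟩ := hzr
    refine ⟨α, β, hα, hN, fun i => (hc i).trans (div_le_div_of_nonneg_left ?_ hmR hmMR)⟩
    fin_cases i
    · exact zero_le_one
    · exact zero_le_one
    · change (0 : ℝ) ≤ H ^ 2
      positivity
    · change (0 : ℝ) ≤ H ^ 3
      positivity
  · intro w hw
    have e : ((C c * P).map (evQ (aff z))).eval w = 0 := by
      rw [Polynomial.map_mul, eval_mul, hw, mul_zero]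
    rw [hcP, Polynomial.map_prod, eval_prod, Finset.prod_eq_zero_iff] at e
    obtain ⟨i, -, hi⟩ := e
    exact h1 2 (Q i) (l i) (b i) (hl i).2.2.2.1 (aff z) (hnear i).2 w hi

/-- the surface has points with `u ≠ 0` over all the `p`-adic fields -/
theorem local_p (p : ℕ) [Fact p.Prime] (a : Fin 5 → ℤ) (f : Fin 7 → ℤ) :
    ∃ Z : Fin 4 → ℚ_[p], IsPt a f Z := by
  have hp1 : ¬ (p : ℤ) ∣ 1 := by
    intro h
    have h1 : p ∣ 1 := by exact_mod_cast h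
    exact (Fact.out : p.Prime).one_lt.ne' (Nat.dvd_one.mp h1)
  have hd : ((p : ℤ) ^ 4) ∣ (1 + bf a (p : ℤ) 0 + bf f (p : ℤ) 0) - 1 ^ 2 := by
    have e1 : bf a (p : ℤ) 0 = a 0 * (p : ℤ) ^ 4 := by
      unfold bf
      rw [Fin.sum_univ_succ]
      simp
    have e2 : bf f (p : ℤ) 0 = f 0 * (p : ℤ) ^ 6 := by
      unfold bf
      rw [Fin.sum_univ_succ]
      simp
    rw [e1, e2]
    exact ⟨a 0 + f 0 * (p : ℤ) ^ 2, by ring⟩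
  obtain ⟨y, hy, -⟩ := hensel_sqrt p 1 (1 + bf a (p : ℤ) 0 + bf f (p : ℤ) 0) hp1 (by
    by_cases hp : p = 2
    · subst hp
      have h1 : ‖((1 + bf a ((2 : ℕ) : ℤ) 0 + bf f ((2 : ℕ) : ℤ) 0 - 1 ^ 2 : ℤ) : ℤ_[2])‖ ≤
          ((2 : ℕ) : ℝ) ^ (-(4 : ℕ) : ℤ) :=
        (PadicInt.norm_int_le_pow_iff_dvd).mpr (by exact_mod_cast hd)
      have h2 : ‖(2 : ℤ_[2])‖ = (2 : ℝ)⁻¹ := by
        have := PadicInt.norm_p (p := 2)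
        exact_mod_cast this
      rw [h2]
      refine lt_of_le_of_lt h1 ?_
      norm_num
    · have hn : ‖(2 : ℤ_[p])‖ ^ 2 = 1 := by rw [norm_two_padic hp, one_pow]
      rw [hn]
      refine (PadicInt.norm_int_lt_one_iff_dvd _).2 ?_
      exact (dvd_pow_self _ (by norm_num)).trans hd)
  refine ⟨![(p : ℚ_[p]), 0, 1, (y : ℚ_[p])], Or.inl ?_, ?_⟩
  · change (p : ℚ_[p]) ≠ 0
    exact_mod_cast (Fact.out : p.Prime).ne_zero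
  · change (y : ℚ_[p]) ^ 2 = (1 : ℚ_[p]) ^ 3 + bf a (p : ℚ_[p]) (0 : ℚ_[p]) * (1 : ℚ_[p]) +
      bf f (p : ℚ_[p]) (0 : ℚ_[p])
    have e1 : bf a (p : ℚ_[p]) (0 : ℚ_[p]) = ((bf a (p : ℤ) 0 : ℤ) : ℚ_[p]) := by
      rw [← bf_cast, Int.cast_zero, Int.cast_natCast]
    have e2 : bf f (p : ℚ_[p]) (0 : ℚ_[p]) = ((bf f (p : ℤ) 0 : ℤ) : ℚ_[p]) := by
      rw [← bf_cast, Int.cast_zero, Int.cast_natCast]
    rw [e1, e2]
    rw [hy]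
    push_cast
    ring

/-- the surface has real points -/
theorem local_r (a : Fin 5 → ℤ) (f : Fin 7 → ℤ) : ∃ W : Fin 4 → ℝ, IsPt a f W := by
  obtain ⟨x, hx⟩ : ∃ x : ℝ, x = 1 + |bf a (1 : ℝ) 0| + |bf f (1 : ℝ) 0| := ⟨_, rfl⟩
  have h0 : 0 ≤ x ^ 3 + bf a (1 : ℝ) 0 * x + bf f (1 : ℝ) 0 := by
    have h1 := neg_abs_le (bf a (1 : ℝ) 0)
    have h2 := neg_abs_le (bf f (1 : ℝ) 0)
    have h3 := abs_nonneg (bf a (1 : ℝ) 0)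
    have h4 := abs_nonneg (bf f (1 : ℝ) 0)
    have hx1 : 1 ≤ x := by linarith
    have h5 : -(|bf a (1 : ℝ) 0| * x) ≤ bf a (1 : ℝ) 0 * x := by nlinarith
    have h6 : -(|bf f (1 : ℝ) 0| * x) ≤ bf f (1 : ℝ) 0 := by nlinarith
    have h7 : x * x ≤ x ^ 3 := by nlinarith [mul_nonneg (by linarith : 0 ≤ x) (by linarith : 0 ≤ x)]
    have h8 : x * x = x + (|bf a (1 : ℝ) 0| * x) + |bf f (1 : ℝ) 0| * x := by
      nth_rewrite 1 [hx]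
      ring
    linarith
  refine ⟨![1, 0, x, Real.sqrt (x ^ 3 + bf a (1 : ℝ) 0 * x + bf f (1 : ℝ) 0)], Or.inl ?_, ?_⟩
  · change (1 : ℝ) ≠ 0
    exact one_ne_zero
  · exact Real.sq_sqrt h0

end Pool.Agent.Helper44q.R
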