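import Pool.Agent.Helper44q.R.Test
import Pool.Agent.DPO.Main
import Pool.Agent.Y297.HB.Box
import Pool.Agent.Y96.HB.Prod
import Pool.Agent.Y155.HB.Spec
import Pool.Agent.Y945.HB.Fac
import Pool.Agent.Y420.HB.LocFin
import Pool.Agent.Y972.HB.NR

/-!
Project RHP (helper44): the theorem for del Pezzo surfaces of degree 1.
-/

set_option autoImplicit false

namespace Pool.Agent.Helper44q.R

open Polynomial Filter Topology Pool.Agent.Y214.HB Pool.Agent.DPO

theorem waf_mono {m M : ℕ} {H : ℝ} {a : Fin 5 → ℤ} {f : Fin 7 → ℤ} (hH : 0 ≤ H) (hm : 1 ≤ m)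
    (hmM : m ≤ M) (h : WAF M H a f) : WAF m H a f := by
  intro Z W hZ hW
  obtain ⟨z, hz, hzp, α, β, hα, hN, hc⟩ := h Z W hZ hW
  have hmR : (0 : ℝ) < m := by exact_mod_cast hm
  have hmMR : (m : ℝ) ≤ M := by exact_mod_cast hmM
  refine ⟨z, hz, ?_, α, β, hα, hN, fun i => (hc i).trans (div_le_div_of_nonneg_left ?_ hmR hmMR)⟩
  · intro p _ hp
    obtain ⟨α, β, hα, hN, hc⟩ := hzp p (hp.trans hmM)
    exact ⟨α, β, hα, hN, fun i => (hc i).trans (div_le_div_of_nonneg_left zero_le_one hmR hmMR)⟩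
  · fin_cases i
    · exact zero_le_one
    · exact zero_le_one
    · change (0 : ℝ) ≤ H ^ 2
      positivity
    · change (0 : ℝ) ≤ H ^ 3
      positivity

theorem mainR :
    ∃ m : ℕ → ℕ, Tendsto m atTop atTop ∧ ∃ e : ℕ → ℝ, Tendsto e atTop (𝓝 0) ∧
    ∀ H : ℕ, 1 ≤ H → ∀ a : Fin 5 → ℤ, (∀ i, |a i| ≤ (H : ℤ) ^ 4) →
      (1 - e H) * (({f : Fin 7 → ℤ | ∀ i, |f i| ≤ (H : ℤ) ^ 6} : Set _).ncard : ℝ) ≤
        (({f : Fin 7 → ℤ | (∀ i, |f i| ≤ (H : ℤ) ^ 6) ∧ WAFP (m H) H a f (PtD (m H))} :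
          Set _).ncard : ℝ) := by
  classical
  obtain ⟨m₀, hm₀, e₀, he₀, hW⟩ := conv Pool.Agent.DPO.main
  have htest := fun n : ℕ => tested_allD Pool.Agent.Y297.HB.t_BOX Pool.Agent.Y96.HB.t_PROD
    Pool.Agent.Y945.HB.t_FAC Pool.Agent.Y155.HB.t_SPEC Pool.Agent.Y972.HB.t_NR (PtD n)
    (ptD_noRoot n) n (1 / ((n : ℝ) + 1)) (by positivity)
  choose M A hM hA using htest
  obtain ⟨m, hm⟩ : ∃ m : ℕ → ℕ, m = fun H : ℕ => Nat.findGreatest
      (fun n => ∀ i, i ≤ n → A i ≤ H ∧ M i ≤ m₀ H) H := ⟨_, rfl⟩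
  have hmtop : Tendsto m atTop atTop := by
    rw [tendsto_atTop]
    intro b
    obtain ⟨B, hB⟩ := Finset.exists_le ((Finset.range (b + 1)).image A)
    obtain ⟨B', hB'⟩ := Finset.exists_le ((Finset.range (b + 1)).image M)
    filter_upwards [eventually_ge_atTop b, eventually_ge_atTop B,
      tendsto_atTop.mp hm₀ B'] with H h1 h2 h3
    rw [hm]
    apply Nat.le_findGreatest h1
    intro i hi
    have hir : i ∈ Finset.range (b + 1) := Finset.mem_range.mpr (by omega)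
    exact ⟨(hB _ (Finset.mem_image_of_mem A hir)).trans h2,
      (hB' _ (Finset.mem_image_of_mem M hir)).trans h3⟩
  have hmspec : ∀ H : ℕ, m H ≠ 0 → A (m H) ≤ H ∧ M (m H) ≤ m₀ H := by
    intro H hH
    have h1 : ∀ i, i ≤ m H → A i ≤ H ∧ M i ≤ m₀ H :=
      Nat.findGreatest_of_ne_zero (P := fun n => ∀ i, i ≤ n → A i ≤ H ∧ M i ≤ m₀ H) (n := H)
        (by rw [hm]) hH
    exact h1 _ le_rfl
  refine ⟨m, hmtop, fun H => if m H < 2 then 1 else 1 / ((m H : ℝ) + 1) + e₀ H, ?_, ?_⟩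
  · have h1 : Tendsto (fun H => 1 / ((m H : ℝ) + 1) + e₀ H) atTop (𝓝 0) := by
      have h2 := (tendsto_one_div_add_atTop_nhds_zero_nat (𝕜 := ℝ)).comp hmtop
      have h3 := h2.add he₀
      rw [add_zero] at h3
      exact h3
    refine h1.congr' ?_
    filter_upwards [tendsto_atTop.mp hmtop 2] with H hH
    rw [if_neg (by omega)]
  · intro H hH a ha
    simp only
    split_ifs with hlt
    · rw [sub_self, zero_mul]
      positivity
    · have hn2 : 2 ≤ m H := by omega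
      obtain ⟨hAH, hMH⟩ := hmspec H (by omega)
      have hH6 : H ≤ H ^ 6 := Nat.le_self_pow (by norm_num) H
      have e1 := hA (m H) (H ^ 6) (hAH.trans hH6) a
      have e2 := hW H hH a ha
      have hbx : Bx (H ^ 6) = {f : Fin 7 → ℤ | ∀ i, |f i| ≤ (H : ℤ) ^ 6} := by
        unfold Bx
        push_cast
        rfl
      rw [← bx_card] at e1
      have hsub : {f : Fin 7 → ℤ | (∀ i, |f i| ≤ (H : ℤ) ^ 6) ∧ WAF (m₀ H) H a f} ⊆
          {f : Fin 7 → ℤ | (∀ i, |f i| ≤ (H : ℤ) ^ 6) ∧ WAFP (m H) H a f (PtD (m H))} ∪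
          {f | f ∈ Bx (H ^ 6) ∧ ¬ TestedD (m H) (M (m H)) a f (PtD (m H))} := by
        rintro f ⟨hf, hw⟩
        by_cases ht : TestedD (m H) (M (m H)) a f (PtD (m H))
        · left
          exact ⟨hf, fixD Pool.Agent.Y420.HB.t_LOC (m H) (M (m H)) H (Nat.cast_nonneg H) a f _ hn2
            (hM (m H)) (waf_mono (Nat.cast_nonneg H) (by have := hM (m H); omega) hMH hw) ht⟩
        · right
          exact ⟨by rw [hbx]; exact hf, ht⟩
      have hf1 : ({f : Fin 7 → ℤ | (∀ i, |f i| ≤ (H : ℤ) ^ 6) ∧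
          WAFP (m H) H a f (PtD (m H))}).Finite :=
        (bx_finite (H ^ 6)).subset fun f hf => by rw [hbx]; exact hf.1
      have h5 := (Set.ncard_le_ncard hsub (hf1.union
        ((bx_finite (H ^ 6)).subset (fun f hf => hf.1)))).trans (Set.ncard_union_le _ _)
      have h7 := (Nat.cast_le (α := ℝ)).mpr h5
      rw [Nat.cast_add] at h7
      rw [hbx] at e1 h7
      linarith

end Pool.Agent.Helper44q.R
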